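import Mathlib
import Pool.Agent.helper78.CX.FIN

/-!
# Small perturbations of simple polytopes: the boundary complex need not be a refinement

For every `d ≥ 7219` the unit cube `[0,1]^d`, a simple `d`-polytope, has arbitrarily close convex
polytopes (in the Hausdorff distance of the Euclidean metric) whose boundary complex is not a
refinement of the boundary complex of the cube.
-/

namespace Pool.Agent.Results.MP_c3df8c_co.RefinementFails

open Pool.Agent.helper78.CX

theorem result (d : ℕ) (hd : 7219 ≤ d) : IsSimplePolytope d (cube (Fin d)) ∧
    ∀ ε > 0, ∃ P' : Set (EuclideanSpace ℝ (Fin d)), IsPolytope P' ∧ (interior P').Nonempty ∧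
      Metric.hausdorffDist (cube (Fin d)) P' < ε ∧
      ¬ IsRefinement (bdComplex P') (bdComplex (cube (Fin d))) :=
  main d hd

end Pool.Agent.Results.MP_c3df8c_co.RefinementFails
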